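import Pool.Agent.H61.HB.Stmts4

/-!
Project HB, row `TRP`: trigonometric polynomials are dense.
-/

set_option autoImplicit false

namespace HB

namespace H18TRP

lemma sq_nn (k : Z2) : 0 ≤ sq k := by
  unfold sq
  positivity

lemma sq_neg (k : Z2) : sq (-k) = sq k := by
  unfold sq
  simp

/-- truncation -/
noncomputable def tru (M : ℝ) (u : V) : V := fun j k =>
  open Classical in if sq k ≤ M ^ 2 then u j k else 0

lemma tail (f : Z2 → ℝ) (ε : ℝ) (hε : 0 < ε) :
    ∃ F : Finset Z2, ∀ G : Finset Z2, F ⊆ G → ∑' k : {k // k ∉ G}, f k < ε := by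
  have h := tendsto_tsum_compl_atTop_zero f
  have h2 := h.eventually (gt_mem_nhds hε)
  rw [Filter.eventually_atTop] at h2
  obtain ⟨F, hF⟩ := h2
  exact ⟨F, fun G hG => hF G hG⟩

lemma one_le (k : Z2) : 1 ≤ 1 + sq k := by
  have h := sq_nn k
  linarith only [h]

end H18TRP

open H18TRP

theorem trp_thm : TRPStmt := by
  intro s r ε u₀ hs hr hε hu hR
  have hch : ∃ F : Finset Z2, ∀ j : Fin 2,
      ∑' k : {k // k ∉ F}, (1 + sq (k : Z2)) ^ s * ‖u₀ j k‖ ^ 2 < ε / 2 := by
    obtain ⟨F0, h0⟩ := tail (fun k => (1 + sq k) ^ s * ‖u₀ 0 k‖ ^ 2) (ε / 2) (by positivity)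
    obtain ⟨F1, h1⟩ := tail (fun k => (1 + sq k) ^ s * ‖u₀ 1 k‖ ^ 2) (ε / 2) (by positivity)
    refine ⟨F0 ∪ F1, fun j => ?_⟩
    fin_cases j
    · exact h0 _ Finset.subset_union_left
    · exact h1 _ Finset.subset_union_right
  obtain ⟨F, hF⟩ := hch
  have hM0 : (0 : ℝ) ≤ ∑ k ∈ F, sq k + 1 := by
    have h := Finset.sum_nonneg (fun k (_ : k ∈ F) => sq_nn k)
    linarith only [h]
  have hMF : ∀ k : Z2, (∑ k ∈ F, sq k + 1) ^ 2 < sq k → k ∉ F := by
    intro k hk hkF
    have h1 : sq k ≤ ∑ k ∈ F, sq k := Finset.single_le_sum (fun k _ => sq_nn k) hkF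
    have h2 := sq_nn k
    nlinarith
  refine ⟨∑ k ∈ F, sq k + 1, tru (∑ k ∈ F, sq k + 1) u₀, hM0, ?_, ?_, ?_⟩
  · intro j k hk
    unfold tru
    rw [if_neg (not_le.mpr hk)]
  · intro j k
    unfold tru
    rw [sq_neg]
    split_ifs
    · exact hR j k
    · simp
  · have hj : ∀ j : Fin 2, nqS (-r) ((tru (∑ k ∈ F, sq k + 1) u₀ - u₀) j) < ε / 2 := by
      intro j
      refine lt_of_le_of_lt ?_ (hF j)
      have hsum : Summable fun k : {k // k ∉ F} => (1 + sq (k : Z2)) ^ s * ‖u₀ j k‖ ^ 2 :=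
        (hu j).subtype _
      have hle : ∀ k : Z2, (1 + sq k) ^ (-r) *
          ‖(tru (∑ k ∈ F, sq k + 1) u₀ - u₀) j k‖ ^ 2 ≤
          Set.indicator {k : Z2 | k ∉ F} (fun k => (1 + sq k) ^ s * ‖u₀ j k‖ ^ 2) k := by
        intro k
        by_cases hk : (∑ k ∈ F, sq k + 1) ^ 2 < sq k
        · rw [Set.indicator_of_mem (show k ∈ {k : Z2 | k ∉ F} from hMF k hk)]
          have h1 : (tru (∑ k ∈ F, sq k + 1) u₀ - u₀) j k = -u₀ j k := by
            simp only [Pi.sub_apply, tru, if_neg (not_le.mpr hk), zero_sub]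
          rw [h1, norm_neg]
          apply mul_le_mul_of_nonneg_right _ (sq_nonneg _)
          exact Real.rpow_le_rpow_of_exponent_le (one_le k) (by linarith only [hs, hr])
        · have h1 : (tru (∑ k ∈ F, sq k + 1) u₀ - u₀) j k = 0 := by
            simp only [Pi.sub_apply, tru, if_pos (not_lt.mp hk), sub_self]
          rw [h1, norm_zero]
          have h2 : (1 + sq k) ^ (-r) * (0 : ℝ) ^ 2 = 0 := by ring
          rw [h2]
          apply Set.indicator_nonneg
          intro k _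
          have h3 := sq_nn k
          positivity
      have hind : Summable (Set.indicator {k : Z2 | k ∉ F}
          (fun k => (1 + sq k) ^ s * ‖u₀ j k‖ ^ 2)) := (hu j).indicator _
      have hnn : ∀ k : Z2, 0 ≤ (1 + sq k) ^ (-r) *
          ‖(tru (∑ k ∈ F, sq k + 1) u₀ - u₀) j k‖ ^ 2 := by
        intro k
        have h3 := sq_nn k
        positivity
      have hs2 : Summable fun k : Z2 => (1 + sq k) ^ (-r) *
          ‖(tru (∑ k ∈ F, sq k + 1) u₀ - u₀) j k‖ ^ 2 :=
        Summable.of_nonneg_of_le hnn hle hind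
      have h4 := hs2.tsum_le_tsum hle hind
      have h5 := tsum_subtype {k : Z2 | k ∉ F} (fun k => (1 + sq k) ^ s * ‖u₀ j k‖ ^ 2)
      rw [← h5] at h4
      exact h4
    unfold nsq
    rw [Fin.sum_univ_two]
    have h0 := hj 0
    have h1 := hj 1
    linarith only [h0, h1]

end HB
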